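import Mathlib
import Pool.Agent.R590.BrFin

set_option autoImplicit false

/-!
# Limits of measurable functions in the generalized Borel hierarchy: definitions, basic facts
-/

namespace Pool.Agent.K9h78.GB

open Cardinal Set Filter Topology Pool.Agent.R590.Kur Pool.Agent.R590.Brl

section defs

variable (κ : Cardinal.{0}) {X Y : Type} [TopologicalSpace X] [TopologicalSpace Y]

/-- The class `M_ξ(X, Y)`: preimages of open sets are in `Σ⁰_ξ(X)`. -/
def Meas (ξ : Ordinal.{0}) (f : X → Y) : Prop := ∀ U : Set Y, IsOpen U → Sig κ ξ (f ⁻¹' U)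

/-- The class `M_{<ξ}(X, Y)`, the union of the classes `M_η(X, Y)` for `1 ≤ η < ξ`. -/
def MeasLt (ξ : Ordinal.{0}) (f : X → Y) : Prop := ∃ η, 1 ≤ η ∧ η < ξ ∧ Meas κ η f

/-- The class `lim_D C`: the pointwise limits of families `(F d)_{d ∈ D}` of functions in `C`. -/
def Lim (D : Type) [Preorder D] (C : (X → Y) → Prop) (f : X → Y) : Prop :=
  ∃ F : D → X → Y, (∀ d, C (F d)) ∧ ∀ x, Tendsto (fun d => F d x) atTop (𝓝 (f x))

/-- The class `\hat lim^ξ_D C`: there are functions `F d` in `C` and an increasing covering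
`(A d)_{d ∈ D}` of `X` by sets in `Σ⁰_ξ(X)` such that `F d' = f` on `A d` whenever `d ≤ d'`. -/
def HLim (ξ : Ordinal.{0}) (D : Type) [Preorder D] (C : (X → Y) → Prop) (f : X → Y) : Prop :=
  ∃ (F : D → X → Y) (A : D → Set X), (∀ d, C (F d)) ∧ (∀ d d', d ≤ d' → A d ⊆ A d') ∧
    (⋃ d, A d) = Set.univ ∧ (∀ d, Sig κ ξ (A d)) ∧ ∀ d d', d ≤ d' → ∀ x ∈ A d, F d' x = f x

end defs

variable {κ : Cardinal.{0}}

/-! ### Normal forms -/

section norm

variable {X : Type} [TopologicalSpace X]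

/-- a set in `Σ⁰_ξ`, `ξ > 1`, is a union indexed by `κ` -/
theorem norm {ξ : Ordinal.{0}} {A : Set X} (h : Sig κ ξ A) (hξ : 1 < ξ) :
    ∃ (F : κ.ord.ToType → Set X) (η : κ.ord.ToType → Ordinal.{0}), (∀ i, 1 ≤ η i) ∧
      (∀ i, η i < ξ) ∧ (∀ i, Sig κ (η i) (F i)ᶜ) ∧ A = ⋃ i, F i := by
  classical
  cases h with
  | opn A hA => exact absurd hξ (lt_irrefl _)
  | union ξ hξ I hI F η h1 h2 h3 =>
    have hI' : #I ≤ #(κ.ord.ToType) := by rwa [mk_ord_toType]
    obtain ⟨e⟩ : Nonempty (I ↪ κ.ord.ToType) := hI'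
    have hF : ∀ i, Function.extend e F (fun _ => ∅) (e i) = F i :=
      fun i => e.injective.extend_apply _ _ _
    have hη : ∀ i, Function.extend e η (fun _ => 1) (e i) = η i :=
      fun i => e.injective.extend_apply _ _ _
    have hF' : ∀ j, (¬ ∃ i, e i = j) → Function.extend e F (fun _ => ∅) j = ∅ :=
      fun j hj => Function.extend_apply' _ _ _ hj
    have hη' : ∀ j, (¬ ∃ i, e i = j) → Function.extend e η (fun _ => 1) j = 1 :=
      fun j hj => Function.extend_apply' _ _ _ hj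
    refine ⟨Function.extend e F (fun _ => ∅), Function.extend e η (fun _ => 1), ?_, ?_, ?_, ?_⟩
    · intro j
      by_cases hj : ∃ i, e i = j
      · obtain ⟨i, rfl⟩ := hj
        rw [hη]; exact h1 i
      · rw [hη' j hj]
    · intro j
      by_cases hj : ∃ i, e i = j
      · obtain ⟨i, rfl⟩ := hj
        rw [hη]; exact h2 i
      · rw [hη' j hj]; exact hξ
    · intro j
      by_cases hj : ∃ i, e i = j
      · obtain ⟨i, rfl⟩ := hj
        rw [hη, hF]; exact h3 i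
      · rw [hη' j hj, hF' j hj, compl_empty]
        exact Sig.opn _ isOpen_univ
    · ext x
      simp only [mem_iUnion]
      constructor
      · rintro ⟨i, hi⟩
        exact ⟨e i, by rw [hF]; exact hi⟩
      · rintro ⟨j, hj⟩
        by_cases hj' : ∃ i, e i = j
        · obtain ⟨i, rfl⟩ := hj'
          rw [hF] at hj
          exact ⟨i, hj⟩
        · rw [hF' j hj'] at hj
          exact absurd hj (notMem_empty x)

/-- preimages under continuous functions -/
theorem sig_preimage {Z : Type} [TopologicalSpace Z] {k : Z → X} (hk : Continuous k)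
    {ξ : Ordinal.{0}} {A : Set X} (h : Sig κ ξ A) : Sig κ ξ (k ⁻¹' A) := by
  induction h with
  | opn A hA => exact Sig.opn _ (hA.preimage hk)
  | union ξ hξ I hI F η h1 h2 h3 ih =>
    rw [preimage_iUnion]
    exact Sig.union ξ hξ I hI _ η h1 h2 ih

theorem isOpen_of_sig_one {A : Set X} (h : Sig κ 1 A) : IsOpen A := by
  cases h with
  | opn _ hA => exact hA
  | union _ hξ => exact absurd hξ (lt_irrefl _)

end norm

/-! ### Closure properties -/

section cl

variable {X : Set (Sp κ)}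

theorem sig_open (hκ : κ.IsRegular) (h2 : (2 : Cardinal.{0}) ^< κ = κ) {ξ : Ordinal.{0}}
    (hξ : 1 ≤ ξ) {U : Set X} (hU : IsOpen U) : Sig κ ξ U := by
  rcases hξ.eq_or_lt with rfl | hξ
  · exact Sig.opn _ hU
  · rw [open_eq hκ hU]
    exact Sig.union ξ hξ (Jn X U) (mk_Jn hκ h2 X U) _ (fun _ => 1) (fun _ => le_rfl)
      (fun _ => hξ) fun s => Sig.opn _ (clopen_pre hκ X s.2.1).compl.isOpen

theorem sig_mono (hκ : κ.IsRegular) (h2 : (2 : Cardinal.{0}) ^< κ = κ) {ξ η : Ordinal.{0}}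
    {A : Set X} (h : Sig κ ξ A) (hle : ξ ≤ η) : Sig κ η A := by
  cases h with
  | opn A hA => exact sig_open hκ h2 hle hA
  | union ξ hξ I hI F η' h1 h2' h3 =>
    exact Sig.union η (hξ.trans_le hle) I hI F η' h1 (fun i => (h2' i).trans_le hle) h3

theorem sig_iUnion (hκ : κ.IsRegular) {ξ : Ordinal.{0}} (hξ : 1 ≤ ξ) {I : Type}
    (hI : #I ≤ κ) {F : I → Set X} (h : ∀ i, Sig κ ξ (F i)) : Sig κ ξ (⋃ i, F i) := by
  rcases hξ.eq_or_lt with rfl | hξ
  · exact Sig.opn _ (isOpen_iUnion fun i => isOpen_of_sig_one (h i))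
  · choose G η h1 h2 h3 h4 using fun i => norm (h i) hξ
    have h5 : (⋃ i, F i) = ⋃ p : I × κ.ord.ToType, G p.1 p.2 := by
      ext x
      simp only [mem_iUnion, h4, Prod.exists]
    rw [h5]
    refine Sig.union ξ hξ _ ?_ _ (fun p => η p.1 p.2) (fun p => h1 _ _) (fun p => h2 _ _)
      fun p => h3 _ _
    rw [mk_prod, lift_id, lift_id, mk_ord_toType]
    exact (mul_le_mul' hI le_rfl).trans (mul_eq_self hκ.aleph0_le).le

theorem sig_union (hκ : κ.IsRegular) {ξ : Ordinal.{0}} {A B : Set X} (hA : Sig κ ξ A)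
    (hB : Sig κ ξ B) : Sig κ ξ (A ∪ B) := by
  rw [union_eq_iUnion]
  refine sig_iUnion hκ hA.one_le ?_ fun b => ?_
  · exact (mk_le_aleph0).trans hκ.aleph0_le
  · cases b
    · exact hB
    · exact hA

theorem sig_inter (hκ : κ.IsRegular) (h2 : (2 : Cardinal.{0}) ^< κ = κ) {ξ : Ordinal.{0}}
    {A B : Set X} (hA : Sig κ ξ A) (hB : Sig κ ξ B) : Sig κ ξ (A ∩ B) := by
  rcases hA.one_le.eq_or_lt with rfl | hξ
  · exact Sig.opn _ ((isOpen_of_sig_one hA).inter (isOpen_of_sig_one hB))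
  · obtain ⟨F, η, a1, a2, a3, rfl⟩ := norm hA hξ
    obtain ⟨G, θ, b1, b2, b3, rfl⟩ := norm hB hξ
    have h5 : (⋃ i, F i) ∩ (⋃ i, G i) =
        ⋃ p : κ.ord.ToType × κ.ord.ToType, F p.1 ∩ G p.2 := by
      ext x
      simp only [mem_iUnion, mem_inter_iff, Prod.exists]
      constructor
      · rintro ⟨⟨i, hi⟩, j, hj⟩
        exact ⟨i, j, hi, hj⟩
      · rintro ⟨i, j, hi, hj⟩
        exact ⟨⟨i, hi⟩, j, hj⟩
    rw [h5]
    refine Sig.union ξ hξ _ ?_ _ (fun p => max (η p.1) (θ p.2))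
      (fun p => (a1 p.1).trans (le_max_left _ _)) (fun p => max_lt (a2 _) (b2 _)) fun p => ?_
    · rw [mk_prod, lift_id, mk_ord_toType]
      exact (mul_eq_self hκ.aleph0_le).le
    · rw [compl_inter]
      exact sig_union hκ (sig_mono hκ h2 (a3 _) (le_max_left _ _))
        (sig_mono hκ h2 (b3 _) (le_max_right _ _))

/-- intersections of at most `κ` complements of `Σ⁰_ξ` sets -/
theorem sig_iInter_compl (hκ : κ.IsRegular) {ξ : Ordinal.{0}} (hξ : 1 ≤ ξ) {I : Type}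
    (hI : #I ≤ κ) {F : I → Set X} (h : ∀ i, Sig κ ξ (F i)) : Sig κ (ξ + 1) (⋂ i, (F i)ᶜ) := by
  rw [← compl_iUnion]
  exact (sig_iUnion hκ hξ hI h).compl hκ

/-- sets whose defining condition does not depend on the point -/
theorem sig_const (hκ : κ.IsRegular) (h2 : (2 : Cardinal.{0}) ^< κ = κ) {ξ : Ordinal.{0}}
    (hξ : 1 ≤ ξ) (p : Prop) : Sig κ ξ {_x : X | p} := by
  refine sig_open hκ h2 hξ ?_
  by_cases hp : p
  · simp [hp]
  · simp [hp]

/-! ### Limit levels -/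

/-- a cofinal sequence -/
structure Fund (ξ : Ordinal.{0}) where
  /-- the sequence -/
  z : ξ.cof.ord.ToType → Ordinal.{0}
  mono : ∀ d d', d ≤ d' → z d ≤ z d'
  one_le : ∀ d, 1 ≤ z d
  lt : ∀ d, z d < ξ
  cof : ∀ η < ξ, ∃ d, η ≤ z d

theorem exists_fund {ξ : Ordinal.{0}} (hξ : Order.IsSuccLimit ξ) : Nonempty (Fund ξ) := by
  obtain ⟨f, hf⟩ := Ordinal.exists_isFundamentalSeq (o := ξ) rfl
  have h1 : (1 : Ordinal.{0}) < ξ := Ordinal.one_lt_of_isSuccLimit hξ
  refine ⟨⟨fun d => max 1 (f (Ordinal.ToType.mk.symm d)).1, fun d d' h => ?_,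
    fun d => le_max_left _ _, fun d => max_lt h1 (f _).2, fun η hη => ?_⟩⟩
  · refine max_le_max le_rfl ?_
    exact hf.strictMono.monotone (Ordinal.ToType.mk.symm.monotone h)
  · obtain ⟨_, ⟨d, rfl⟩, hd⟩ := hf.isCofinal_range ⟨η, hη⟩
    refine ⟨Ordinal.ToType.mk d, ?_⟩
    rw [OrderIso.symm_apply_apply]
    exact le_trans hd (le_max_right _ _)

/-- a set in `Σ⁰_ξ`, `ξ` a limit, is the union of an increasing `cof ξ`-sequence of sets of
lower levels -/
theorem limdec (hκ : κ.IsRegular) (h2 : (2 : Cardinal.{0}) ^< κ = κ) {ξ : Ordinal.{0}}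
    (hξ : Order.IsSuccLimit ξ) (φ : Fund ξ) {A : Set X} (h : Sig κ ξ A) :
    ∃ B : ξ.cof.ord.ToType → Set X, (∀ d, Sig κ (φ.z d) (B d)) ∧
      (∀ d d', d ≤ d' → B d ⊆ B d') ∧ A = ⋃ d, B d := by
  have h1 : (1 : Ordinal.{0}) < ξ := Ordinal.one_lt_of_isSuccLimit hξ
  obtain ⟨F, η, a1, a2, a3, rfl⟩ := norm h h1
  refine ⟨fun d => ⋃ i : {i // η i + 1 ≤ φ.z d}, F i.1, fun d => ?_, fun d d' hd => ?_, ?_⟩
  · refine sig_iUnion hκ (φ.one_le d) ((mk_subtype_le _).trans (mk_ord_toType κ).le) fun i => ?_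
    have := (a3 i.1).compl hκ
    rw [compl_compl] at this
    exact sig_mono hκ h2 this i.2
  · intro x hx
    simp only [mem_iUnion, Subtype.exists, exists_prop] at hx ⊢
    obtain ⟨i, hi, hx⟩ := hx
    exact ⟨i, hi.trans (φ.mono d d' hd), hx⟩
  · ext x
    simp only [mem_iUnion, Subtype.exists, exists_prop]
    constructor
    · rintro ⟨i, hi⟩
      obtain ⟨d, hd⟩ := φ.cof (η i + 1) (hξ.succ_lt (a2 i))
      exact ⟨d, i, hd, hi⟩
    · rintro ⟨d, i, -, hi⟩
      exact ⟨i, hi⟩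

end cl

end Pool.Agent.K9h78.GB
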