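import Mathlib
import Pool.Agent.K9h78.GBa

set_option autoImplicit false

/-!
# Approximations of Borel sets along clubs
-/

namespace Pool.Agent.K9h78.GB

open Cardinal Set Filter Topology Pool.Agent.R590.Kur Pool.Agent.R590.Brl

variable {κ : Cardinal.{0}}

/-- unbounded -/
def Unb (K : Set κ.ord.ToType) : Prop := ∀ b, ∃ c ∈ K, b < c

/-- closed -/
def Clo (K : Set κ.ord.ToType) : Prop :=
  ∀ β, (∃ b, b < β) → (∀ b < β, ∃ c ∈ K, b < c ∧ c < β) → β ∈ K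

theorem exists_gt' (hκ : κ.IsRegular) (b : κ.ord.ToType) : ∃ c, b < c := by
  obtain ⟨c, hc⟩ := exists_ub hκ (M := Unit)
    (by rw [mk_unit]; exact one_lt_aleph0.trans_le hκ.aleph0_le) fun _ => b
  exact ⟨c, hc ()⟩

theorem mk_Iic_lt' (hκ : κ.IsRegular) (b : κ.ord.ToType) : #(Iic b) < κ := by
  obtain ⟨c, hc⟩ := exists_gt' hκ b
  exact (mk_le_mk_of_subset (Iic_subset_Iio.2 hc)).trans_lt (mk_Iio_lt' c)

/-- diagonal intersections of fewer than `κ` many clubs at each point -/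
theorem diag (hκ : κ.IsRegular) (h0 : ℵ₀ < κ) {I M : Type} (e : I → κ.ord.ToType)
    (he : Function.Injective e) (hM : #M < κ) (K : I → M → Set κ.ord.ToType)
    (hU : ∀ i m, Unb (K i m)) (hC : ∀ i m, Clo (K i m)) :
    Unb {β | ∀ i, e i < β → ∀ m, β ∈ K i m} := by
  intro b0
  have hstep : ∀ b : κ.ord.ToType, ∃ b', b < b' ∧ ∀ i, e i < b → ∀ m, ∃ c ∈ K i m,
      b < c ∧ c < b' := by
    intro b
    have hcard : #({i // e i < b} × M) < κ := by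
      rw [mk_prod, lift_id, lift_id]
      refine mul_lt_of_lt hκ.aleph0_le ?_ hM
      refine lt_of_le_of_lt (mk_le_of_injective (β := Iio b) (f := fun i => ⟨e i.1, i.2⟩) ?_)
        (mk_Iio_lt' b)
      intro i j hij
      exact Subtype.ext (he (congrArg Subtype.val hij))
    choose c hc hbc using fun p : {i // e i < b} × M => hU p.1.1 p.2 b
    obtain ⟨b', hb'⟩ := exists_ub hκ hcard c
    obtain ⟨b1, hb1⟩ := exists_gt' hκ b
    exact ⟨max b' b1, hb1.trans_le (le_max_right _ _), fun i hi m => ⟨c (⟨i, hi⟩, m), hc (⟨i, hi⟩, m),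
      hbc _, (hb' _).trans_le (le_max_left _ _)⟩⟩
  choose nx hnx hnx2 using hstep
  let s : ℕ → κ.ord.ToType := fun n => nx^[n] (nx b0)
  have hs : ∀ n, s (n + 1) = nx (s n) := fun n => Function.iterate_succ_apply' _ _ _
  obtain ⟨u, hu⟩ := exists_ub hκ (M := ℕ) (by rw [mk_nat]; exact h0) s
  have hne : {u | ∀ n, s n < u}.Nonempty := ⟨u, hu⟩
  let β := WellFounded.min (wellFounded_lt (α := κ.ord.ToType)) {u | ∀ n, s n < u} hne
  have hβ : ∀ n, s n < β := WellFounded.min_mem _ _ hne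
  have hmin : ∀ b < β, ∃ n, b ≤ s n := by
    intro b hb
    by_contra hcon
    push Not at hcon
    exact WellFounded.not_lt_min (wellFounded_lt (α := κ.ord.ToType)) {u | ∀ n, s n < u}
      (show b ∈ {u | ∀ n, s n < u} from hcon) hb
  have hmono : StrictMono s := strictMono_nat_of_lt_succ fun n => by
    rw [hs]; exact hnx _
  refine ⟨β, fun i hi m => hC i m β ⟨_, hβ 0⟩ fun b hb => ?_, (hnx b0).trans (hβ 0)⟩
  obtain ⟨n1, h1⟩ := hmin _ hb
  obtain ⟨n2, h2⟩ := hmin _ hi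
  have h3 : e i < s (max n1 n2 + 1) :=
    (h2.trans (hmono.monotone (le_max_right _ _))).trans_lt (hmono (Nat.lt_succ_self _))
  obtain ⟨c, hc, hc1, hc2⟩ := hnx2 _ i h3 m
  refine ⟨c, hc, lt_of_le_of_lt ?_ hc1, hc2.trans ?_⟩
  · exact h1.trans (hmono.monotone ((le_max_left _ _).trans (Nat.le_succ _)))
  · rw [← hs]; exact hβ _

/-- a closed set which meets `Iic γ` has a largest element in it -/
theorem exists_top {K : Set κ.ord.ToType} (hK : Clo K) {γ c : κ.ord.ToType} (hc : c ∈ K)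
    (hcγ : c ≤ γ) : ∃ β ∈ K, β ≤ γ ∧ ∀ β' ∈ K, β' ≤ γ → β' ≤ β := by
  have hne : {u | ∀ β' ∈ K, β' ≤ γ → β' ≤ u}.Nonempty := ⟨γ, fun _ _ h => h⟩
  let β := WellFounded.min (wellFounded_lt (α := κ.ord.ToType)) _ hne
  have hβ : ∀ β' ∈ K, β' ≤ γ → β' ≤ β := WellFounded.min_mem _ _ hne
  have hmin : ∀ b < β, ∃ β' ∈ K, β' ≤ γ ∧ b < β' := by
    intro b hb
    by_contra hcon
    push Not at hcon
    exact WellFounded.not_lt_min (wellFounded_lt (α := κ.ord.ToType)) _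
      (show b ∈ {u | ∀ β' ∈ K, β' ≤ γ → β' ≤ u} from hcon) hb
  have hle : β ≤ γ := by
    by_contra hcon
    obtain ⟨β', -, h1, h2⟩ := hmin γ (not_le.1 hcon)
    exact absurd h2 (not_lt.2 h1)
  refine ⟨β, ?_, hle, hβ⟩
  by_contra hcon
  refine hcon (hK β ?_ fun b hb => ?_)
  · rcases (hβ c hc hcγ).lt_or_eq with h | h
    · exact ⟨c, h⟩
    · exact absurd (h ▸ hc) hcon
  · obtain ⟨β', h1, h2, h3⟩ := hmin b hb
    refine ⟨β', h1, h3, lt_of_le_of_ne (hβ β' h1 h2) ?_⟩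
    rintro rfl
    exact hcon h1

variable {X : Set (Sp κ)}

/-- `A` is approximated along clubs; the complexity of the clubs is `θ` -/
def Apx (A : Set X) (θ : Ordinal.{0}) : Prop :=
  ∃ (C : X → Set κ.ord.ToType) (T : κ.ord.ToType → Set X), (∀ x, Unb (C x)) ∧
    (∀ x, Clo (C x)) ∧ (∀ x, ∀ β ∈ C x, (x ∈ A ↔ x ∈ T β)) ∧
    (∀ β (x y : X), Agree x.1 y.1 β → x ∈ T β → y ∈ T β) ∧ ∀ β, Sig κ θ {x | β ∈ C x}ᶜ

theorem Apx.compl {A : Set X} {θ : Ordinal.{0}} (h : Apx A θ) : Apx Aᶜ θ := by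
  obtain ⟨C, T, h1, h2, h3, h4, h5⟩ := h
  refine ⟨C, fun β => (T β)ᶜ, h1, h2, fun x β hβ => not_congr (h3 x β hβ), fun β x y hxy hx hy => ?_,
    h5⟩
  exact hx (h4 β y x hxy.symm hy)

theorem Apx.mono (hκ : κ.IsRegular) (h2 : (2 : Cardinal.{0}) ^< κ = κ) {A : Set X}
    {θ θ' : Ordinal.{0}} (h : Apx A θ) (hle : θ ≤ θ') : Apx A θ' := by
  obtain ⟨C, T, a1, a2, a3, a4, a5⟩ := h
  exact ⟨C, T, a1, a2, a3, a4, fun β => sig_mono hκ h2 (a5 β) hle⟩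

theorem apx_cyl (hκ : κ.IsRegular) (h2 : (2 : Cardinal.{0}) ^< κ = κ) {s : Set (Sp κ)}
    (hs : s ∈ Cy κ) {θ : Ordinal.{0}} (hθ : 1 ≤ θ) : Apx ((↑) ⁻¹' s : Set X) θ := by
  obtain ⟨z, α, rfl⟩ := hs
  refine ⟨fun _ => Ici α, fun β => {x | α ≤ β ∧ Agree x.1 z α}, fun _ b => ?_,
    fun _ β hb h => ?_, fun x β hβ => ?_, fun β x y hxy hx => ?_, fun β => ?_⟩
  · obtain ⟨c, hc⟩ := exists_gt' hκ (max b α)
    exact ⟨c, ((le_max_right _ _).trans_lt hc).le, (le_max_left _ _).trans_lt hc⟩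
  · obtain ⟨b, hb⟩ := hb
    obtain ⟨c, hc1, -, hc3⟩ := h b hb
    exact (show α ≤ c from hc1).trans hc3.le
  · exact ⟨fun h => ⟨hβ, h⟩, fun h => h.2⟩
  · exact ⟨hx.1, Agree.trans (Agree.symm (hxy.mono hx.1)) hx.2⟩
  · exact sig_const hκ h2 hθ (¬ (β ∈ Ici α))

theorem apx_iUnion (hκ : κ.IsRegular) (h0 : ℵ₀ < κ) (h2 : (2 : Cardinal.{0}) ^< κ = κ)
    {ξ : Ordinal.{0}} (hξ : 1 ≤ ξ) {I : Type} (hI : #I ≤ κ) {F : I → Set X}
    (h : ∀ i, Apx (F i) (ξ + 1)) (hF : ∀ i, Sig κ ξ (F i)) : Apx (⋃ i, F i) (ξ + 1) := by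
  obtain ⟨e⟩ : Nonempty (I ↪ κ.ord.ToType) :=
    (show #I ≤ #(κ.ord.ToType) by rwa [mk_ord_toType])
  choose C T a1 a2 a3 a4 a5 using h
  have hsub : ∀ β : κ.ord.ToType, #{i // e i < β} ≤ κ := fun β => (mk_subtype_le _).trans hI
  refine ⟨fun x => {β | (∀ i, e i < β → β ∈ C i x) ∧ (x ∈ ⋃ i, F i → ∃ i, e i < β ∧ x ∈ F i)},
    fun β => ⋃ i : {i // e i < β}, T i.1 β, fun x b => ?_, fun x β hb hc => ⟨fun i hi => ?_, ?_⟩,
    fun x β hβ => ?_, fun β x y hxy hx => ?_, fun β => ?_⟩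
  · have hd := diag hκ h0 (M := Unit) e e.injective
      (by rw [mk_unit]; exact one_lt_aleph0.trans h0) (fun i _ => C i x)
      (fun i _ => a1 i x) fun i _ => a2 i x
    by_cases hx : x ∈ ⋃ i, F i
    · obtain ⟨i, hi⟩ := mem_iUnion.1 hx
      obtain ⟨c, hc, hbc⟩ := hd (max b (e i))
      exact ⟨c, ⟨fun j hj => hc j hj (), fun _ => ⟨i, (le_max_right _ _).trans_lt hbc, hi⟩⟩,
        (le_max_left _ _).trans_lt hbc⟩
    · obtain ⟨c, hc, hbc⟩ := hd b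
      exact ⟨c, ⟨fun j hj => hc j hj (), fun h => absurd h hx⟩, hbc⟩
  · refine a2 i x β hb fun b hb' => ?_
    obtain ⟨c, hc1, hc2, hc3⟩ := hc (max b (e i)) (max_lt hb' hi)
    exact ⟨c, hc1.1 i ((le_max_right _ _).trans_lt hc2), (le_max_left _ _).trans_lt hc2, hc3⟩
  · intro hx
    obtain ⟨b, hb⟩ := hb
    obtain ⟨c, hc1, -, hc3⟩ := hc b hb
    obtain ⟨i, hi, hxi⟩ := hc1.2 hx
    exact ⟨i, hi.trans hc3, hxi⟩
  · constructor
    · intro hx
      obtain ⟨i, hi, hxi⟩ := hβ.2 hx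
      exact mem_iUnion.2 ⟨⟨i, hi⟩, (a3 i x β (hβ.1 i hi)).1 hxi⟩
    · intro hx
      obtain ⟨i, hxi⟩ := mem_iUnion.1 hx
      exact mem_iUnion.2 ⟨i.1, (a3 i.1 x β (hβ.1 i.1 i.2)).2 hxi⟩
  · obtain ⟨i, hxi⟩ := mem_iUnion.1 hx
    exact mem_iUnion.2 ⟨i, a4 i.1 β x y hxy hxi⟩
  · have heq : {x : X | β ∈ {β | (∀ i, e i < β → β ∈ C i x) ∧
        (x ∈ ⋃ i, F i → ∃ i, e i < β ∧ x ∈ F i)}}ᶜ =
        (⋃ i : {i // e i < β}, {x | β ∈ C i.1 x}ᶜ) ∪
        ((⋃ i, F i) ∩ (⋃ i : {i // e i < β}, F i.1)ᶜ) := by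
      ext x
      simp only [mem_compl_iff, mem_ofPred_eq, mem_union, mem_iUnion, mem_inter_iff,
        Subtype.exists, exists_prop]
      have key : (¬ ∀ i, e i < β → β ∈ C i x) ↔ ∃ a, e a < β ∧ β ∉ C a x := by
        push Not
        rfl
      rw [← key, not_and_or, Classical.not_imp]
    rw [heq]
    have hξ1 : 1 ≤ ξ + 1 := hξ.trans le_self_add
    refine sig_union hκ (sig_iUnion hκ hξ1 (hsub β) fun i => a5 _ _) (sig_inter hκ h2 ?_ ?_)
    · exact sig_mono hκ h2 (sig_iUnion hκ hξ hI hF) le_self_add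
    · exact (sig_iUnion hκ hξ (hsub β) fun i => hF _).compl hκ

theorem apx_sig (hκ : κ.IsRegular) (h0 : ℵ₀ < κ) (h2 : (2 : Cardinal.{0}) ^< κ = κ)
    {ξ : Ordinal.{0}} {A : Set X} (h : Sig κ ξ A) : Apx A (ξ + 1) := by
  induction h with
  | opn A hA =>
    rw [open_eq hκ hA]
    exact apx_iUnion hκ h0 h2 le_rfl (mk_Jn hκ h2 X A)
      (fun s => apx_cyl hκ h2 s.2.1 le_self_add)
      fun s => Sig.opn _ (clopen_pre hκ X s.2.1).isOpen
  | union ξ hξ I hI F η h1 h2' h3 ih =>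
    refine apx_iUnion hκ h0 h2 hξ.le hI (fun i => ?_) fun i => ?_
    · have := (ih i).compl
      rw [compl_compl] at this
      exact this.mono hκ h2 (by
        have : η i + 1 ≤ ξ := Order.add_one_le_of_lt (h2' i)
        exact this.trans le_self_add)
    · have := (h3 i).compl hκ
      rw [compl_compl] at this
      exact sig_mono hκ h2 this (Order.add_one_le_of_lt (h2' i))

end Pool.Agent.K9h78.GB
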