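import Mathlib
import Pool.Agent.K9h78.GBb

set_option autoImplicit false

/-!
# Functions of class `M_{ξ+1}` are double limits of functions of class `M_{<ξ}`
-/

namespace Pool.Agent.K9h78.GB

open Cardinal Set Filter Topology Pool.Agent.R590.Kur Pool.Agent.R590.Brl

variable {κ : Cardinal.{0}}

/-- sets which depend only on an initial segment are open -/
theorem isOpen_dep {X : Set (Sp κ)} {A : Set X} (β : κ.ord.ToType)
    (h : ∀ x y : X, Agree x.1 y.1 β → x ∈ A → y ∈ A) : IsOpen A := by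
  have : A = ⋃ x : A, ((↑) ⁻¹' {y : Sp κ | Agree y x.1.1 β} : Set X) := by
    ext y
    simp only [mem_iUnion, mem_preimage, mem_ofPred_eq]
    constructor
    · intro hy
      exact ⟨⟨y, hy⟩, Agree.refl _ _⟩
    · rintro ⟨x, hx⟩
      exact h x.1 y (Agree.symm hx) x.2
  rw [this]
  exact isOpen_iUnion fun x => (isOpen_cyl _ _).preimage continuous_subtype_val

theorem weak (hκ : κ.IsRegular) (h0 : ℵ₀ < κ) (h2 : (2 : Cardinal.{0}) ^< κ = κ)
    {ξ : Ordinal.{0}} (hξ : Order.IsSuccLimit ξ) (hc : ξ.cof < κ) {X Y : Set (Sp κ)}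
    {f : X → Y} (hf : Meas κ (ξ + 1) f) :
    Lim κ.ord.ToType (Lim ξ.cof.ord.ToType (MeasLt κ ξ)) f := by
  classical
  have h1 : (1 : Ordinal.{0}) < ξ := Ordinal.one_lt_of_isSuccLimit hξ
  rcases isEmpty_or_nonempty X with hX | ⟨⟨x0⟩⟩
  · refine ⟨fun _ => f, fun _ => ⟨fun _ => f, fun _ => ⟨1, le_rfl, h1, fun U _ => ?_⟩,
      fun x => isEmptyElim x⟩, fun x => isEmptyElim x⟩
    rw [Set.eq_empty_of_isEmpty (f ⁻¹' U)]
    exact Sig.opn _ isOpen_empty
  obtain ⟨φ⟩ := exists_fund hξ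
  have hM : #(ξ.cof.ord.ToType) < κ := by rwa [mk_ord_toType]
  have hMne : Nonempty ξ.cof.ord.ToType := ⟨(φ.cof 1 h1).choose⟩
  have hdec : ∀ s : Cy κ, ∃ B : κ.ord.ToType → ξ.cof.ord.ToType → Set X,
      (∀ j d, Sig κ (φ.z d) (B j d)) ∧ f ⁻¹' ((↑) ⁻¹' s.1) = ⋃ j, ⋂ d, (B j d)ᶜ := by
    intro s
    obtain ⟨F, η, b1, b2, b3, b4⟩ := norm (hf _ (clopen_pre hκ Y s.2).isOpen)
      (h1.trans (lt_add_one ξ))
    choose B c1 c2 c3 using fun j => limdec hκ h2 hξ φ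
      (sig_mono hκ h2 (b3 j) (Order.lt_add_one_iff.1 (b2 j)))
    refine ⟨B, c1, ?_⟩
    rw [b4]
    refine iUnion_congr fun j => ?_
    rw [← compl_iUnion, ← c3, compl_compl]
  choose B hB1 hB2 using hdec
  have hcard : #(Cy κ × κ.ord.ToType) ≤ #(κ.ord.ToType) := by
    rw [mk_prod, lift_id, lift_id, mk_ord_toType]
    exact (mul_le_mul' (mk_Cy hκ h2) le_rfl).trans (mul_eq_self hκ.aleph0_le).le
  have hcard2 : #(Cy κ × κ.ord.ToType) ≤ κ := hcard.trans (mk_ord_toType κ).le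
  obtain ⟨e⟩ : Nonempty (Cy κ × κ.ord.ToType ↪ κ.ord.ToType) := hcard
  have hA : ∀ (i : Cy κ × κ.ord.ToType) (d : ξ.cof.ord.ToType),
      Apx ((B i.1 i.2 d)ᶜ) (φ.z d + 1) := fun i d => (apx_sig hκ h0 h2 (hB1 _ _ _)).compl
  choose C T a1 a2 a3 a4 a5 using hA
  -- the clubs of level `d`, and their intersection
  let CC : ξ.cof.ord.ToType → X → Set κ.ord.ToType :=
    fun d x => {β | ∀ i, e i < β → ∀ d' ≤ d, β ∈ C i d' x}
  let KK : X → Set κ.ord.ToType := fun x => {β | ∀ i, e i < β → ∀ d, β ∈ C i d x}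
  have CCclo : ∀ d x, Clo (CC d x) := by
    intro d x β hb hcl i hi d' hd'
    refine a2 i d' x β hb fun b hb' => ?_
    obtain ⟨c, hc1, hc2, hc3⟩ := hcl (max b (e i)) (max_lt hb' hi)
    exact ⟨c, hc1 i ((le_max_right _ _).trans_lt hc2) d' hd', (le_max_left _ _).trans_lt hc2, hc3⟩
  have CCmono : ∀ d d' x, d ≤ d' → CC d' x ⊆ CC d x :=
    fun d d' x hd β hβ i hi d'' hd'' => hβ i hi d'' (hd''.trans hd)
  have KKsub : ∀ d x, KK x ⊆ CC d x := fun d x β hβ i hi d' _ => hβ i hi d'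
  have KKunb : ∀ x, Unb (KK x) := fun x =>
    diag hκ h0 e e.injective hM (fun i d => C i d x) (fun i d => a1 i d x) fun i d => a2 i d x
  let R : κ.ord.ToType → X → Set (Cy κ × κ.ord.ToType) :=
    fun β x => {i | e i < β ∧ ∀ d, x ∈ T i d β}
  have Rdep : ∀ β (x y : X), Agree x.1 y.1 β → R β x = R β y := by
    intro β x y hxy
    ext i
    exact and_congr Iff.rfl (forall_congr' fun d =>
      ⟨a4 i d β x y hxy, a4 i d β y x hxy.symm⟩)
  let G0 : Set (Cy κ × κ.ord.ToType) → Y := fun S =>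
    if h : ∃ y : Y, ∀ i ∈ S, y.1 ∈ i.1.1 then h.choose else f x0
  have G0spec : ∀ S, (∃ y : Y, ∀ i ∈ S, y.1 ∈ i.1.1) → ∀ i ∈ S, (G0 S).1 ∈ i.1.1 := by
    intro S hS
    have : G0 S = hS.choose := dif_pos hS
    rw [this]
    exact hS.choose_spec
  let Top : κ.ord.ToType → ξ.cof.ord.ToType → X → κ.ord.ToType → Prop := fun γ d x β =>
    β ≤ γ ∧ β ∈ CC d x ∧ ∀ β', β < β' → β' ≤ γ → β' ∉ CC d x
  have Topu : ∀ γ d x β β', Top γ d x β → Top γ d x β' → β = β' := by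
    intro γ d x β β' h h'
    rcases lt_trichotomy β β' with hlt | heq | hlt
    · exact absurd h'.2.1 (h.2.2 β' hlt h'.1)
    · exact heq
    · exact absurd h.2.1 (h'.2.2 β hlt h.1)
  let Fn : κ.ord.ToType → ξ.cof.ord.ToType → X → Y := fun γ d x =>
    if h : ∃ β, Top γ d x β then G0 (R h.choose x) else f x0
  have FnT : ∀ γ d x β, Top γ d x β → Fn γ d x = G0 (R β x) := by
    intro γ d x β hβ
    have hex : ∃ β, Top γ d x β := ⟨β, hβ⟩
    have : Fn γ d x = G0 (R hex.choose x) := dif_pos hex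
    rw [this, Topu γ d x _ _ hex.choose_spec hβ]
  have FnN : ∀ γ d x, (¬ ∃ β, Top γ d x β) → Fn γ d x = f x0 := fun γ d x h => dif_neg h
  -- `Top` exists as soon as the club meets `Iic γ`
  have Topex : ∀ γ d x c, c ∈ CC d x → c ≤ γ → ∃ β, Top γ d x β := by
    intro γ d x c hc1 hc2
    obtain ⟨β, hβ1, hβ2, hβ3⟩ := exists_top (CCclo d x) hc1 hc2
    exact ⟨β, hβ2, hβ1, fun β' hlt hle hmem => absurd (hβ3 β' hmem hle) (not_le.2 hlt)⟩
  -- measurability
  have hCC : ∀ d β, Sig κ (φ.z d + 1) {x | β ∈ CC d x}ᶜ := by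
    intro d β
    have heq : {x | β ∈ CC d x}ᶜ = ⋃ p : {p : (Cy κ × κ.ord.ToType) × ξ.cof.ord.ToType //
        e p.1 < β ∧ p.2 ≤ d}, {x | β ∈ C p.1.1 p.1.2 x}ᶜ := by
      ext x
      simp only [mem_compl_iff, mem_iUnion, mem_ofPred_eq, CC, not_forall, Subtype.exists,
        exists_prop]
      constructor
      · rintro ⟨i, hi, d', hd', h⟩
        exact ⟨(i, d'), ⟨hi, hd'⟩, h⟩
      · rintro ⟨⟨i, d'⟩, ⟨hi, hd'⟩, h⟩
        exact ⟨i, hi, d', hd', h⟩
    rw [heq]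
    refine sig_iUnion hκ le_add_self ?_ fun p => ?_
    · refine (mk_subtype_le _).trans ?_
      rw [mk_prod, lift_id, lift_id]
      refine (mul_le_mul' hcard2 hM.le).trans
        (mul_eq_self hκ.aleph0_le).le
    · exact sig_mono hκ h2 (a5 p.1.1 p.1.2 β) (add_le_add_left (φ.mono _ _ p.2.2) 1)
  have hWle : ∀ p : κ.ord.ToType → Prop, #{β // p β} ≤ κ := fun p =>
    (mk_subtype_le _).trans (mk_ord_toType κ).le
  have hmeas : ∀ γ d, MeasLt κ ξ (Fn γ d) := by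
    intro γ d
    have hlt : φ.z d + 1 + 1 + 1 < ξ := hξ.succ_lt (hξ.succ_lt (hξ.succ_lt (φ.lt d)))
    have hle1 : (1 : Ordinal.{0}) ≤ φ.z d + 1 := le_add_self
    have hle2 : φ.z d + 1 ≤ φ.z d + 1 + 1 := le_self_add
    have hle3 : φ.z d + 1 + 1 ≤ φ.z d + 1 + 1 + 1 := le_self_add
    refine ⟨φ.z d + 1 + 1 + 1, le_add_self, hlt, fun U _ => ?_⟩
    have heq : Fn γ d ⁻¹' U = (⋃ β : {β // β ≤ γ}, (({x | β.1 ∈ CC d x}ᶜ)ᶜ ∩
        (⋂ β' : {β' // β.1 < β' ∧ β' ≤ γ}, {x | β'.1 ∈ CC d x}ᶜ)) ∩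
        {x | G0 (R β.1 x) ∈ U}) ∪
        ((⋂ β : {β // β ≤ γ}, {x | β.1 ∈ CC d x}ᶜ) ∩ {_x | f x0 ∈ U}) := by
      ext x
      simp only [mem_preimage, mem_union, mem_iUnion, mem_inter_iff, mem_iInter, mem_compl_iff,
        mem_ofPred_eq, not_not, Subtype.exists, Subtype.forall, exists_prop]
      by_cases hex : ∃ β, Top γ d x β
      · obtain ⟨β, hβ⟩ := hex
        rw [FnT γ d x β hβ]
        constructor
        · intro h
          exact Or.inl ⟨β, hβ.1, ⟨hβ.2.1, fun β' hβ' => hβ.2.2 β' hβ'.1 hβ'.2⟩, h⟩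
        · rintro (⟨β1, h3, ⟨h4, h5⟩, h6⟩ | ⟨h3, -⟩)
          · have : β1 = β := Topu γ d x _ _ ⟨h3, h4, fun β' h7 h8 => h5 β' ⟨h7, h8⟩⟩ hβ
            rwa [← this]
          · exact absurd hβ.2.1 (h3 β hβ.1)
      · rw [FnN γ d x hex]
        constructor
        · intro h
          exact Or.inr ⟨fun β hβ hmem => hex (Topex γ d x β hmem hβ), h⟩
        · rintro (⟨β1, h3, ⟨h4, -⟩, -⟩ | ⟨-, h4⟩)
          · exact absurd (Topex γ d x β1 h4 h3) hex
          · exact h4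
    rw [heq]
    refine sig_union hκ (sig_iUnion hκ le_add_self (hWle _) fun β => ?_) ?_
    · refine sig_inter hκ h2 (sig_inter hκ h2 ?_ ?_) ?_
      · exact sig_mono hκ h2 ((hCC d β.1).compl hκ) hle3
      · have := sig_iInter_compl hκ (ξ := φ.z d + 1 + 1) le_add_self
          (hWle fun β' => β.1 < β' ∧ β' ≤ γ)
          (F := fun β' => {x | β'.1 ∈ CC d x}) fun β' => by
            have := (hCC d β'.1).compl hκ
            rwa [compl_compl] at this
        exact this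
      · exact sig_open hκ h2 le_add_self (isOpen_dep β.1 fun x y hxy hx => by
          show G0 (R β.1 y) ∈ U
          rw [← Rdep β.1 x y hxy]
          exact hx)
    · refine sig_inter hκ h2 ?_ (sig_const hκ h2 le_add_self _)
      exact sig_iInter_compl hκ (ξ := φ.z d + 1 + 1) le_add_self
          (hWle fun β => β ≤ γ)
          (F := fun β => {x | β.1 ∈ CC d x}) fun β => by
            have := (hCC d β.1).compl hκ
            rwa [compl_compl] at this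
  -- the inner limits
  have hinner : ∀ γ x, ∃ y : Y, (∃ d0, ∀ d, d0 ≤ d → Fn γ d x = y) ∧
      ((∃ c ∈ KK x, c ≤ γ) → ∃ β, (∀ c ∈ KK x, c ≤ γ → c ≤ β) ∧ β ∈ KK x ∧ y = G0 (R β x)) := by
    intro γ x
    by_cases hall : ∀ d, ∃ β, Top γ d x β
    · choose b hb using hall
      have hanti : ∀ d d', d ≤ d' → b d' ≤ b d := by
        intro d d' hd
        by_contra hcon
        exact (hb d).2.2 (b d') (not_le.1 hcon) (hb d').1 (CCmono d d' x hd (hb d').2.1)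
      have hne : (range b).Nonempty := range_nonempty b
      obtain ⟨d0, hd0⟩ : ∃ d0, b d0 = WellFounded.min (wellFounded_lt (α := κ.ord.ToType))
          (range b) hne := WellFounded.min_mem _ _ hne
      have hst : ∀ d, d0 ≤ d → b d = b d0 := by
        intro d hd
        refine le_antisymm (hanti d0 d hd) ?_
        rw [hd0]
        exact not_lt.1 (WellFounded.not_lt_min (wellFounded_lt (α := κ.ord.ToType)) _
          (mem_range_self d))
      refine ⟨G0 (R (b d0) x), ⟨d0, fun d hd => ?_⟩, fun _ => ⟨b d0, fun c hc1 hc2 => ?_, ?_, rfl⟩⟩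
      · rw [FnT γ d x _ (hb d), hst d hd]
      · by_contra hcon
        exact (hb d0).2.2 c (not_le.1 hcon) hc2 (KKsub d0 x hc1)
      · intro i hi d
        have h3 := hst (max d d0) (le_max_right _ _)
        have h4 := (hb (max d d0)).2.1
        rw [h3] at h4
        exact h4 i hi d (le_max_left _ _)
    · push Not at hall
      obtain ⟨d0, hd0⟩ := hall
      have hno : ∀ d, d0 ≤ d → ¬ ∃ β, Top γ d x β := by
        rintro d hd ⟨β, hβ⟩
        obtain ⟨β', hβ'⟩ := Topex γ d0 x β (CCmono d0 d x hd hβ.2.1) hβ.1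
        exact hd0 β' hβ'
      refine ⟨f x0, ⟨d0, fun d hd => FnN γ d x (hno d hd)⟩, ?_⟩
      rintro ⟨c, hc1, hc2⟩
      obtain ⟨β', hβ'⟩ := Topex γ d0 x c (KKsub d0 x hc1) hc2
      exact absurd hβ' (hd0 β')
  choose g hg1 hg2 using hinner
  refine ⟨g, fun γ => ⟨Fn γ, hmeas γ, fun x => ?_⟩, fun x => ?_⟩
  · obtain ⟨d0, hd0⟩ := hg1 γ x
    refine tendsto_const_nhds.congr' ?_
    filter_upwards [eventually_ge_atTop d0] with d hd
    exact (hd0 d hd).symm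
  · rw [tendsto_nhds]
    intro U hU hx
    obtain ⟨α, hα⟩ := exists_nhd hκ hU hx
    let s : Cy κ := ⟨{y | Agree y (f x).1 α}, (f x).1, α, rfl⟩
    have hxs : x ∈ f ⁻¹' ((↑) ⁻¹' s.1) := Agree.refl _ _
    rw [hB2] at hxs
    obtain ⟨j, hj⟩ := mem_iUnion.1 hxs
    rw [mem_iInter] at hj
    obtain ⟨γ0, hγ0, hγ1⟩ := KKunb x (e (s, j))
    filter_upwards [eventually_ge_atTop γ0] with γ hγ
    obtain ⟨β, hβ1, hβ2, hβ3⟩ := hg2 γ x ⟨γ0, hγ0, hγ⟩
    have hβ4 : e (s, j) < β := hγ1.trans_le (hβ1 γ0 hγ0 hγ)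
    have hex : ∃ y : Y, ∀ i ∈ R β x, y.1 ∈ i.1.1 := by
      refine ⟨f x, fun i hi => ?_⟩
      have h5 : x ∈ f ⁻¹' ((↑) ⁻¹' i.1.1) := by
        rw [hB2]
        refine mem_iUnion.2 ⟨i.2, mem_iInter.2 fun d => ?_⟩
        exact (a3 i d x β (hβ2 i hi.1 d)).2 (hi.2 d)
      exact h5
    have h6 : (s, j) ∈ R β x :=
      ⟨hβ4, fun d => (a3 (s, j) d x β (hβ2 (s, j) hβ4 d)).1 (hj d)⟩
    have h7 := G0spec _ hex _ h6
    show g γ x ∈ U
    rw [hβ3]
    exact hα _ h7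

end Pool.Agent.K9h78.GB
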