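import Mathlib
import Pool.Agent.K9h78.GBa

set_option autoImplicit false

/-!
# The limits `lim_κ (\hat lim^ξ_{cof ξ} M_{<ξ})` are the functions in `M_ξ`
-/

namespace Pool.Agent.K9h78.GB

open Cardinal Set Filter Topology Pool.Agent.R590.Kur Pool.Agent.R590.Brl

variable {κ : Cardinal.{0}}

theorem meas_of_hlim (hκ : κ.IsRegular) (h2 : (2 : Cardinal.{0}) ^< κ = κ) {ξ : Ordinal.{0}}
    (hξ : 1 ≤ ξ) {D : Type} [Preorder D] (hD : #D ≤ κ) {X Y : Set (Sp κ)} {f : X → Y}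
    (h : HLim κ ξ D (MeasLt κ ξ) f) : Meas κ ξ f := by
  obtain ⟨F, A, hF, -, hAc, hAs, hFA⟩ := h
  intro U hU
  have heq : f ⁻¹' U = ⋃ d, A d ∩ F d ⁻¹' U := by
    ext x
    simp only [mem_preimage, mem_iUnion, mem_inter_iff]
    constructor
    · intro hx
      have h3 : x ∈ ⋃ d, A d := hAc ▸ mem_univ x
      obtain ⟨d, hd⟩ := mem_iUnion.1 h3
      refine ⟨d, hd, ?_⟩
      rwa [hFA d d le_rfl x hd]
    · rintro ⟨d, hd, h3⟩
      rwa [hFA d d le_rfl x hd] at h3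
  rw [heq]
  refine sig_iUnion hκ hξ hD fun d => sig_inter hκ h2 (hAs d) ?_
  obtain ⟨η, -, h4, h5⟩ := hF d
  exact sig_mono hκ h2 (h5 U hU) h4.le

/-- `M_ξ` is closed under `κ`-limits if `cof ξ < κ` -/
theorem meas_of_lim (hκ : κ.IsRegular) (h2 : (2 : Cardinal.{0}) ^< κ = κ) {ξ : Ordinal.{0}}
    (hξ : Order.IsSuccLimit ξ) (hc : ξ.cof < κ) {X Y : Set (Sp κ)} {f : X → Y}
    (h : Lim κ.ord.ToType (Meas κ ξ) f) : Meas κ ξ f := by
  have h1 : (1 : Ordinal.{0}) < ξ := Ordinal.one_lt_of_isSuccLimit hξ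
  have hne := nonempty_of hκ
  obtain ⟨φ⟩ := exists_fund hξ
  have hM : #(ξ.cof.ord.ToType) < κ := by rwa [mk_ord_toType]
  obtain ⟨F, hF, hl⟩ := h
  have key : ∀ s ∈ Cy κ, Sig κ ξ (f ⁻¹' ((↑) ⁻¹' s)) := by
    intro s hs
    have hV : IsClopen ((↑) ⁻¹' s : Set Y) := clopen_pre hκ Y hs
    choose A hA1 hA2 hA3 using fun α => limdec hκ h2 hξ φ (hF α _ hV.isOpen)
    have heq : f ⁻¹' ((↑) ⁻¹' s) = ⋃ d, ⋂ β, ⋃ α : {α : κ.ord.ToType // β ≤ α}, A α.1 d := by
      ext x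
      simp only [mem_iUnion, mem_iInter, Subtype.exists, exists_prop]
      constructor
      · intro hx
        by_contra hcon
        push Not at hcon
        choose β hβ using hcon
        obtain ⟨b, hb⟩ := exists_ub hκ hM β
        obtain ⟨β0, hβ0⟩ := mem_atTop_sets.1 (tendsto_nhds.1 (hl x) _ hV.isOpen hx)
        have h3 : x ∈ F (max b β0) ⁻¹' ((↑) ⁻¹' s) := hβ0 _ (le_max_right _ _)
        rw [hA3] at h3
        obtain ⟨d, hd⟩ := mem_iUnion.1 h3
        exact hβ d _ ((hb d).le.trans (le_max_left _ _)) hd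
      · rintro ⟨d, hd⟩
        by_contra hcon
        obtain ⟨β0, hβ0⟩ := mem_atTop_sets.1 (tendsto_nhds.1 (hl x) _ hV.compl.isOpen hcon)
        obtain ⟨α, hα1, hα2⟩ := hd β0
        refine hβ0 α hα1 ?_
        show x ∈ F α ⁻¹' ((↑) ⁻¹' s)
        rw [hA3]
        exact mem_iUnion.2 ⟨d, hα2⟩
    rw [heq]
    refine Sig.union ξ h1 _ hM.le _ (fun d => φ.z d + 1) (fun d => le_add_self)
      (fun d => hξ.succ_lt (φ.lt d)) fun d => ?_
    rw [compl_iInter]
    refine sig_iUnion hκ le_add_self (mk_ord_toType κ).le fun β => ?_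
    exact (sig_iUnion hκ (φ.one_le d) ((mk_subtype_le _).trans (mk_ord_toType κ).le)
      fun α => hA1 _ _).compl hκ
  intro U hU
  rw [open_eq hκ hU, preimage_iUnion]
  exact sig_iUnion hκ h1.le (mk_Jn hκ h2 Y U) fun s => key _ s.2.1

theorem lim_of_meas (hκ : κ.IsRegular) (h2 : (2 : Cardinal.{0}) ^< κ = κ) {ξ : Ordinal.{0}}
    (hξ : Order.IsSuccLimit ξ) (hc : ξ.cof ≤ κ) {X Y : Set (Sp κ)} {f : X → Y}
    (hf : Meas κ ξ f) :
    Lim κ.ord.ToType (HLim κ ξ ξ.cof.ord.ToType (MeasLt κ ξ)) f := by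
  classical
  have h1 : (1 : Ordinal.{0}) < ξ := Ordinal.one_lt_of_isSuccLimit hξ
  rcases isEmpty_or_nonempty X with hX | ⟨⟨x0⟩⟩
  · refine ⟨fun _ => f, fun _ => ⟨fun _ => f, fun _ => Set.univ, fun _ => ⟨1, le_rfl, h1,
      fun U _ => ?_⟩, fun _ _ _ => le_rfl, Subsingleton.elim _ _, fun _ => ?_,
      fun _ _ _ x => isEmptyElim x⟩, fun x => isEmptyElim x⟩
    · rw [Set.eq_empty_of_isEmpty (f ⁻¹' U)]
      exact Sig.opn _ isOpen_empty
    · exact sig_open hκ h2 h1.le isOpen_univ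
  obtain ⟨φ⟩ := exists_fund hξ
  have hM : #(ξ.cof.ord.ToType) ≤ κ := by rwa [mk_ord_toType]
  let I : κ.ord.ToType → Type := fun γ =>
    {c : Set (Sp κ) // (∃ x : Sp κ, c = {y | Agree y x γ}) ∧ ∃ y : Y, y.1 ∈ c}
  have hI : ∀ γ, #(I γ) ≤ κ := by
    intro γ
    refine le_trans (mk_le_of_injective (β := Cy κ)
      (f := fun c => ⟨c.1, c.2.1.choose, γ, c.2.1.choose_spec⟩) ?_) (mk_Cy hκ h2)
    intro c c' h
    exact Subtype.ext (show c.1 = c'.1 from congrArg (fun z : Cy κ => z.1) h)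
  let rep : ∀ γ, I γ → Y := fun γ c => c.2.2.choose
  have hrep : ∀ γ (c : I γ), (rep γ c).1 ∈ c.1 := fun γ c => c.2.2.choose_spec
  let cl : ∀ γ, X → I γ := fun γ x => ⟨{y | Agree y (f x).1 γ}, ⟨(f x).1, rfl⟩, f x,
    Agree.refl _ _⟩
  have hcl : ∀ γ (c : I γ) x, (f x).1 ∈ c.1 → c = cl γ x := by
    intro γ c x hx
    apply Subtype.ext
    obtain ⟨z, hz⟩ := c.2.1
    rw [hz] at hx ⊢
    show {y | Agree y z γ} = {y | Agree y (f x).1 γ}
    ext y
    exact ⟨fun h => Agree.trans h hx.symm, fun h => Agree.trans h hx⟩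
  let F : κ.ord.ToType → X → Y := fun γ x => rep γ (cl γ x)
  refine ⟨F, fun γ => ?_, fun x => ?_⟩
  · choose B hB1 hB2 hB3 using fun c : I γ => limdec hκ h2 hξ φ
      (hf ((↑) ⁻¹' c.1) (clopen_pre hκ Y ⟨c.2.1.choose, γ, c.2.1.choose_spec⟩).isOpen)
    have hBf : ∀ c d x, x ∈ B c d → c = cl γ x := by
      intro c d x hx
      refine hcl γ c x ?_
      have : x ∈ f ⁻¹' ((↑) ⁻¹' c.1) := by
        rw [hB3 c]
        exact mem_iUnion.2 ⟨d, hx⟩
      exact this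
    let A : ξ.cof.ord.ToType → Set X := fun d => ⋃ c, B c d
    have hA1 : ∀ d, Sig κ (φ.z d) (A d) := fun d =>
      sig_iUnion hκ (φ.one_le d) (hI γ) fun c => hB1 c d
    have hA2 : ∀ d d', d ≤ d' → A d ⊆ A d' := fun d d' hd =>
      iUnion_mono fun c => hB2 c d d' hd
    refine ⟨fun d x => if x ∈ A d then F γ x else f x0, A, fun d => ?_, hA2, ?_,
      fun d => sig_mono hκ h2 (hA1 d) (φ.lt d).le, fun d d' hd x hx => if_pos (hA2 d d' hd hx)⟩
    · refine ⟨φ.z d + 1, le_add_self, hξ.succ_lt (φ.lt d), fun U _ => ?_⟩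
      have heq : (fun x => if x ∈ A d then F γ x else f x0) ⁻¹' U =
          (⋃ c : {c // rep γ c ∈ U}, B c.1 d) ∪ ((A d)ᶜ ∩ {_x | f x0 ∈ U}) := by
        ext x
        simp only [mem_preimage, mem_union, mem_iUnion, mem_inter_iff, mem_compl_iff,
          mem_ofPred_eq, Subtype.exists, exists_prop]
        by_cases hx : x ∈ A d
        · rw [if_pos hx]
          constructor
          · intro h
            obtain ⟨c, hc⟩ := mem_iUnion.1 hx
            exact Or.inl ⟨c, by rw [hBf c d x hc]; exact h, hc⟩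
          · rintro (⟨c, h3, h4⟩ | h3)
            · show rep γ (cl γ x) ∈ U
              rw [← hBf c d x h4]
              exact h3
            · exact absurd hx h3.1
        · rw [if_neg hx]
          constructor
          · exact fun h => Or.inr ⟨hx, h⟩
          · rintro (⟨c, -, h4⟩ | h3)
            · exact absurd (mem_iUnion.2 ⟨c, h4⟩) hx
            · exact h3.2
      rw [heq]
      refine sig_union hκ ?_ (sig_inter hκ h2 ((hA1 d).compl hκ) (sig_const hκ h2 le_add_self _))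
      exact sig_mono hκ h2 (sig_iUnion hκ (φ.one_le d) ((mk_subtype_le _).trans (hI γ))
        fun c => hB1 c.1 d) le_self_add
    · refine eq_univ_of_forall fun x => ?_
      have h3 : x ∈ f ⁻¹' ((↑) ⁻¹' (cl γ x).1) := Agree.refl _ _
      rw [hB3 (cl γ x)] at h3
      obtain ⟨d, hd⟩ := mem_iUnion.1 h3
      exact mem_iUnion.2 ⟨d, mem_iUnion.2 ⟨cl γ x, hd⟩⟩
  · rw [tendsto_nhds]
    intro U hU hx
    obtain ⟨α, hα⟩ := exists_nhd hκ hU hx
    filter_upwards [eventually_ge_atTop α] with γ hγ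
    refine hα _ ?_
    have h3 : Agree (rep γ (cl γ x)).1 (f x).1 γ := hrep γ (cl γ x)
    exact h3.mono hγ

end Pool.Agent.K9h78.GB
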