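import Mathlib
import Pool.Agent.K9h78.GBa

set_option autoImplicit false

/-!
# The generalized Borel hierarchy on the generalized Baire space does not collapse
-/

namespace Pool.Agent.K9h78.GB

open Cardinal Set Filter Topology Pool.Agent.R590.Kur Pool.Agent.R590.Brl

variable {κ : Cardinal.{0}}

theorem sig_univ (hκ : κ.IsRegular) {X : Type} [TopologicalSpace X] {ξ : Ordinal.{0}}
    (hξ : 1 ≤ ξ) : Sig κ ξ (Set.univ : Set X) := by
  rcases hξ.eq_or_lt with rfl | hξ
  · exact Sig.opn _ isOpen_univ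
  · have : Sig κ ξ (⋃ _ : Unit, (Set.univ : Set X)) := by
      refine Sig.union ξ hξ Unit ?_ _ (fun _ => 1) (fun _ => le_rfl) (fun _ => hξ) fun _ => ?_
      · rw [mk_unit]
        exact one_le_aleph0.trans hκ.aleph0_le
      · rw [compl_univ]
        exact Sig.opn _ isOpen_empty
    rwa [iUnion_const] at this

theorem exists_ne' (hκ : κ.IsRegular) : ∃ a b : κ.ord.ToType, a ≠ b := by
  have h : 1 < #(κ.ord.ToType) := by
    rw [mk_ord_toType]
    exact one_lt_aleph0.trans_le hκ.aleph0_le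
  obtain ⟨a, b, hab⟩ := (one_lt_iff_nontrivial.1 h).exists_pair_ne
  exact ⟨a, b, hab⟩

theorem isOpen_ne' (hκ : κ.IsRegular) (w o : κ.ord.ToType) : IsOpen {c : Sp κ | c w ≠ o} := by
  have := nonempty_of hκ
  obtain ⟨u, hu⟩ := exists_ub hκ (M := Unit)
    (by rw [mk_unit]; exact one_lt_aleph0.trans_le hκ.aleph0_le) fun _ => w
  refine isOpen_iff.2 fun x hx => ⟨u, fun y hy => ?_⟩
  show y w ≠ o
  rw [hy w (hu ())]
  exact hx

/-- universal sets -/
theorem exists_universal (hκ : κ.IsRegular) (h2 : (2 : Cardinal.{0}) ^< κ = κ)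
    (ξ : Ordinal.{0}) (hξ : 1 ≤ ξ) (hξκ : ξ < (Order.succ κ).ord) :
    ∃ S : Sp κ → Set (Sp κ), (∀ A : Set (Sp κ), Sig κ ξ A → ∃ c, S c = A) ∧
      ∀ g h : Sp κ → Sp κ, Continuous g → Continuous h → Sig κ ξ {z | h z ∈ S (g z)} := by
  classical
  have hne := nonempty_of hκ
  induction ξ using WellFoundedLT.induction with
  | _ ξ ih =>
  rcases hξ.eq_or_lt with rfl | hξ1
  · obtain ⟨o, o', hoo⟩ := exists_ne' hκ
    obtain ⟨e⟩ : Nonempty (Cy κ ↪ κ.ord.ToType) :=
      (show #(Cy κ) ≤ #(κ.ord.ToType) by rw [mk_ord_toType]; exact mk_Cy hκ h2)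
    refine ⟨fun c => ⋃ s : Cy κ, {x | c (e s) ≠ o ∧ x ∈ s.1}, fun A hA => ?_,
      fun g h hg hh => ?_⟩
    · refine ⟨fun w => if ∃ s : Cy κ, e s = w ∧ s.1 ⊆ A then o' else o, ?_⟩
      have hval : ∀ s : Cy κ, ((if ∃ s' : Cy κ, e s' = e s ∧ s'.1 ⊆ A then o' else o) ≠ o) ↔
          s.1 ⊆ A := by
        intro s
        constructor
        · intro h3
          by_cases h4 : ∃ s' : Cy κ, e s' = e s ∧ s'.1 ⊆ A
          · obtain ⟨s', h5, h6⟩ := h4
            rwa [e.injective h5] at h6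
          · rw [if_neg h4] at h3
            exact absurd rfl h3
        · intro h3
          rw [if_pos ⟨s, rfl, h3⟩]
          exact hoo.symm
      ext x
      simp only [mem_iUnion, mem_ofPred_eq, hval]
      constructor
      · rintro ⟨s, h3, h4⟩
        exact h3 h4
      · intro hx
        obtain ⟨α, hα⟩ := isOpen_iff.1 (isOpen_of_sig_one hA) x hx
        exact ⟨⟨{y | Agree y x α}, x, α, rfl⟩, fun y hy => hα y hy, Agree.refl _ _⟩
    · refine Sig.opn _ ?_
      have heq : {z | h z ∈ ⋃ s : Cy κ, {x | g z (e s) ≠ o ∧ x ∈ s.1}} =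
          ⋃ s : Cy κ, g ⁻¹' {c | c (e s) ≠ o} ∩ h ⁻¹' s.1 := by
        ext z
        simp only [mem_iUnion, mem_ofPred_eq, mem_inter_iff, mem_preimage]
      rw [heq]
      exact isOpen_iUnion fun s => ((isOpen_ne' hκ _ _).preimage hg).inter
        ((clopen_Cy hκ s.2).isOpen.preimage hh)
  · -- the levels below `ξ`, indexed by `ξ.ToType`
    let η : ξ.ToType → Ordinal.{0} := fun n => max 1 (Ordinal.ToType.mk.symm n).1
    have hη1 : ∀ n, 1 ≤ η n := fun n => le_max_left _ _
    have hη2 : ∀ n, η n < ξ := fun n => max_lt hξ1 (Ordinal.ToType.mk.symm n).2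
    have hη3 : ∀ θ : Ordinal.{0}, 1 ≤ θ → θ < ξ → ∃ n, η n = θ := by
      intro θ h3 h4
      refine ⟨Ordinal.ToType.mk ⟨θ, h4⟩, ?_⟩
      show max 1 (Ordinal.ToType.mk.symm (Ordinal.ToType.mk ⟨θ, h4⟩)).1 = θ
      rw [OrderIso.symm_apply_apply]
      exact max_eq_right h3
    choose S hS1 hS2 using fun n => ih (η n) (hη2 n) (hη1 n) ((hη2 n).trans hξκ)
    have hN : #(ξ.ToType) ≤ κ := by
      rw [mk_toType]
      exact Order.lt_succ_iff.1 (lt_ord.1 hξκ)
    have hNW : #(ξ.ToType × κ.ord.ToType) ≤ κ := by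
      rw [mk_prod, lift_id, lift_id, mk_ord_toType]
      exact (mul_le_mul' hN le_rfl).trans (mul_eq_self hκ.aleph0_le).le
    have hcard : #((ξ.ToType × κ.ord.ToType) × κ.ord.ToType) ≤ #(κ.ord.ToType) := by
      rw [mk_prod, lift_id, lift_id, mk_ord_toType]
      exact (mul_le_mul' hNW le_rfl).trans (mul_eq_self hκ.aleph0_le).le
    obtain ⟨p⟩ : Nonempty ((ξ.ToType × κ.ord.ToType) × κ.ord.ToType ↪ κ.ord.ToType) := hcard
    let pr : ξ.ToType × κ.ord.ToType → Sp κ → Sp κ := fun q c k => c (p (q, k))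
    have hpr : ∀ q, Continuous (pr q) := by
      intro q
      refine continuous_of fun x α => ?_
      obtain ⟨β, hβ⟩ := exists_ub hκ (mk_Iio_lt' α) fun k : Iio α => p (q, k.1)
      exact ⟨β, fun y hy k hk => hy _ (hβ ⟨k, hk⟩)⟩
    refine ⟨fun c => ⋃ q : ξ.ToType × κ.ord.ToType, (S q.1 (pr q c))ᶜ, fun A hA => ?_,
      fun g h hg hh => ?_⟩
    · obtain ⟨F, θ, b1, b2, b3, rfl⟩ := norm hA hξ1
      choose nn hnn using fun i => hη3 (θ i) (b1 i) (b2 i)
      choose cc hcc using fun i => hS1 (nn i) (F i)ᶜ (by rw [hnn]; exact b3 i)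
      choose uu huu using fun n => hS1 n Set.univ (sig_univ hκ (hη1 n))
      let q0 : (ξ.ToType × κ.ord.ToType) × κ.ord.ToType → κ.ord.ToType := fun t =>
        if t.1.1 = nn t.1.2 then cc t.1.2 t.2 else uu t.1.1 t.2
      refine ⟨Function.extend p q0 fun _ => hne.some, ?_⟩
      have hval : ∀ n b, pr (n, b) (Function.extend p q0 fun _ => hne.some) =
          if n = nn b then cc b else uu n := by
        intro n b
        funext k
        show Function.extend p q0 (fun _ => hne.some) (p ((n, b), k)) = _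
        rw [p.injective.extend_apply]
        show (if n = nn b then cc b k else uu n k) = _
        split_ifs <;> rfl
      ext x
      simp only [mem_iUnion, mem_compl_iff, Prod.exists, hval]
      constructor
      · rintro ⟨n, b, h3⟩
        by_cases h4 : n = nn b
        · subst h4
          rw [if_pos rfl, hcc] at h3
          exact ⟨b, by simpa using h3⟩
        · rw [if_neg h4, huu] at h3
          exact absurd (mem_univ x) h3
      · rintro ⟨b, hb⟩
        refine ⟨nn b, b, ?_⟩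
        rw [if_pos rfl, hcc]
        exact fun h3 => h3 hb
    · have heq : {z | h z ∈ ⋃ q : ξ.ToType × κ.ord.ToType, (S q.1 (pr q (g z)))ᶜ} =
          ⋃ q : ξ.ToType × κ.ord.ToType, {z | h z ∉ S q.1 (pr q (g z))} := by
        ext z
        simp only [mem_iUnion, mem_ofPred_eq, mem_compl_iff]
      rw [heq]
      refine Sig.union ξ hξ1 _ hNW _ (fun q => η q.1) (fun q => hη1 _) (fun q => hη2 _)
        fun q => ?_
      have h3 := hS2 q.1 (fun z => pr q (g z)) h ((hpr q).comp hg) hh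
      have h4 : {z | h z ∉ S q.1 (pr q (g z))}ᶜ = {z | h z ∈ S q.1 (pr q (g z))} := by
        ext z
        simp only [mem_compl_iff, mem_ofPred_eq, not_not]
      rw [h4]
      exact h3

/-- there is a set whose complement is in `Σ⁰_ξ`, but which is not in `Σ⁰_ξ` -/
theorem noncollapse (hκ : κ.IsRegular) (h2 : (2 : Cardinal.{0}) ^< κ = κ)
    (ξ : Ordinal.{0}) (hξ : 1 ≤ ξ) (hξκ : ξ < (Order.succ κ).ord) :
    ∃ A : Set (Sp κ), Sig κ ξ Aᶜ ∧ ¬ Sig κ ξ A := by
  obtain ⟨S, hS1, hS2⟩ := exists_universal hκ h2 ξ hξ hξκ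
  refine ⟨{x | x ∉ S x}, ?_, fun hcon => ?_⟩
  · have h3 := hS2 (fun z => z) (fun z => z) continuous_id continuous_id
    have h4 : {x | x ∉ S x}ᶜ = {z | z ∈ S z} := by
      ext z
      simp only [mem_compl_iff, mem_ofPred_eq, not_not]
    rw [h4]
    exact h3
  · obtain ⟨c, hc⟩ := hS1 _ hcon
    by_cases h5 : c ∈ S c
    · have h6 : c ∈ {x | x ∉ S x} := hc ▸ h5
      exact h6 h5
    · have h6 : c ∈ S c := by
        rw [hc]
        exact h5
      exact h5 h6

end Pool.Agent.K9h78.GB
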